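import Mathlib
import Pool.Agent.Lib_helper91.TreeL

/-!
# The converse limit theorem for iterated tree-free convolution is false

We disprove Q1 of MP_50dbd7_an.  With `N = 4` letters and the finite tree
`T = {∅, 1, 2, 3, 4, 12, 13, 14}` (so `n(T) = 4` and
`K_{⊞_T μ}(z) = K_μ(z) + 3 K_μ(z - K_μ(z))`) we construct measures `μ_l` and `k_l → ∞` such that
`⊞_{T^{∘ k_l}}(μ_l)` converges weakly while the boolean powers `μ_l^{⊎ 4^{k_l}}` do not.
-/

set_option autoImplicit false

namespace Pool.Agent.Results.MP_50dbd7_an.ConverseFails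

noncomputable section
open MeasureTheory Filter Topology

/-- The Cauchy transform `G_μ(z) = ∫ (z - t)⁻¹ dμ(t)`. -/
def cauchyG (μ : ProbabilityMeasure ℝ) (z : ℂ) : ℂ := ∫ t : ℝ, (z - t)⁻¹ ∂(μ : Measure ℝ)

/-- The function `K_μ(z) = z - 1 / G_μ(z)`. -/
def KT (μ : ProbabilityMeasure ℝ) (z : ℂ) : ℂ := z - (cauchyG μ z)⁻¹

/-- Strings over `[N]` are lists over `Fin N`, the leftmost letter first.  `IsTree T` says
`T ∈ Tree(N)`: `T` is a set of alternating strings that contains the empty string and is closed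
under deleting the leftmost letter, that is, a subtree containing the root. -/
structure IsTree {N : ℕ} (T : Set (List (Fin N))) : Prop where
  root : [] ∈ T
  alternating : ∀ s ∈ T, s.IsChain (· ≠ ·)
  parent : ∀ (j : Fin N) (s : List (Fin N)), j :: s ∈ T → s ∈ T

/-- The branch `br_j(T) = {s : s j ∈ T}`. -/
def branch {N : ℕ} (T : Set (List (Fin N))) (j : Fin N) : Set (List (Fin N)) :=
  {s | s ++ [j] ∈ T}

open Classical in
/-- The neighbours `[N] ∩ T` of the root. -/
def nbrs {N : ℕ} (T : Set (List (Fin N))) : Finset (Fin N) :=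
  Finset.univ.filter fun j => [j] ∈ T

/-- `n(T)`, the number of neighbours of the root. -/
def deg {N : ℕ} (T : Set (List (Fin N))) : ℕ := (nbrs T).card

/-- The point mass at `0`. -/
def delta0 : ProbabilityMeasure ℝ := ⟨Measure.dirac 0, inferInstance⟩

/-- `IsTreeConv T μ ρ` says `ρ = ⊞_T(μ)`, for trees of finite depth: `⊞_{∅}(μ) = δ_0`, and
`K_ρ(z) = ∑_{j ∈ [N] ∩ T} K_μ(z - K_{⊞_{br_j T} μ}(z))` for `z` in the upper half plane. -/
inductive IsTreeConv {N : ℕ} :
    Set (List (Fin N)) → ProbabilityMeasure ℝ → ProbabilityMeasure ℝ → Prop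
  | root (μ : ProbabilityMeasure ℝ) : IsTreeConv {[]} μ delta0
  | node (T : Set (List (Fin N))) (μ ρ : ProbabilityMeasure ℝ) (β : Fin N → ProbabilityMeasure ℝ)
      (hβ : ∀ j ∈ nbrs T, IsTreeConv (branch T j) μ (β j))
      (hK : ∀ z : ℂ, 0 < z.im → KT ρ z = ∑ j ∈ nbrs T, KT μ (z - KT (β j) z)) :
      IsTreeConv T μ ρ

/-- `IsIterate T k μ ρ` says `ρ = ⊞_{T^{∘ k}}(μ)`, the `k`-th iterate of `⊞_T`. -/
def IsIterate {N : ℕ} (T : Set (List (Fin N))) :
    ℕ → ProbabilityMeasure ℝ → ProbabilityMeasure ℝ → Prop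
  | 0, μ, ρ => ρ = μ
  | (k + 1), μ, ρ => ∃ ρ', IsIterate T k μ ρ' ∧ IsTreeConv T ρ' ρ

/-- `IsBooleanPower c μ σ` says `σ = μ^{⊎ c}`: `K_σ = c K_μ` on the upper half plane. -/
def IsBooleanPower (c : ℝ) (μ σ : ProbabilityMeasure ℝ) : Prop :=
  ∀ z : ℂ, 0 < z.im → KT σ z = c * KT μ z

/-- Weak convergence to some probability measure. -/
def Converges (x : ℕ → ProbabilityMeasure ℝ) : Prop := ∃ ν, Tendsto x atTop (𝓝 ν)

/-- The tree `{∅, 1, 2, 3, 4, 12, 13, 14}` over four letters, the letters `1, 2, 3, 4` being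
`0, 1, 2, 3 : Fin 4`. -/
def tree : Set (List (Fin 4)) := {[], [0], [1], [2], [3], [0, 1], [0, 2], [0, 3]}

lemma tree_isTree : IsTree tree := by
  refine ⟨by simp [tree], ?_, ?_⟩
  · intro s hs
    simp only [tree, Set.mem_insert_iff, Set.mem_singleton_iff] at hs
    rcases hs with rfl | rfl | rfl | rfl | rfl | rfl | rfl | rfl <;> simp
  · intro j s hs
    simp only [tree, Set.mem_insert_iff, Set.mem_singleton_iff, List.cons.injEq] at hs ⊢
    rcases hs with h | h | h | h | h | h | h | h
    · cases h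
    · simp [h.2]
    · simp [h.2]
    · simp [h.2]
    · simp [h.2]
    · simp [h.2]
    · simp [h.2]
    · simp [h.2]

lemma nbrs_tree : nbrs tree = Finset.univ := by
  ext j
  simp only [nbrs, Finset.mem_filter, Finset.mem_univ, true_and, iff_true]
  fin_cases j <;> simp [tree]

lemma deg_tree : deg tree = 4 := by
  rw [deg, nbrs_tree]; rfl

lemma branch_zero : branch tree 0 = {[]} := by
  ext s
  simp only [branch, Set.mem_ofPred_eq, Set.mem_singleton_iff]
  rcases s with _ | ⟨a, _ | ⟨b, t⟩⟩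
  · simp [tree]
  · simp [tree]
  · simp [tree]

/-- the path `{∅, 1}` -/
def path1 : Set (List (Fin 4)) := {[], [0]}

lemma branch_succ (j : Fin 4) (hj : j ≠ 0) : branch tree j = path1 := by
  ext s
  simp only [branch, Set.mem_ofPred_eq, path1, Set.mem_insert_iff, Set.mem_singleton_iff]
  rcases s with _ | ⟨a, _ | ⟨b, t⟩⟩
  · fin_cases j <;> simp [tree] at *
  · fin_cases j <;> simp [tree] at *
  · simp [tree]

lemma nbrs_path1 : nbrs path1 = {0} := by
  ext j
  simp only [nbrs, Finset.mem_filter, Finset.mem_univ, true_and, Finset.mem_singleton]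
  fin_cases j <;> simp [path1]

lemma branch_path1 : branch path1 0 = {[]} := by
  ext s
  simp only [branch, Set.mem_ofPred_eq, Set.mem_singleton_iff]
  rcases s with _ | ⟨a, _ | ⟨b, t⟩⟩
  · simp [path1]
  · simp [path1]
  · simp [path1]

lemma KT_delta0 (z : ℂ) : KT delta0 z = 0 := by
  unfold KT cauchyG delta0
  simp

lemma conv_path1 (μ : ProbabilityMeasure ℝ) : IsTreeConv path1 μ μ := by
  refine IsTreeConv.node path1 μ μ (fun _ => delta0) ?_ ?_
  · intro j hj
    rw [nbrs_path1, Finset.mem_singleton] at hj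
    subst hj
    rw [branch_path1]
    exact IsTreeConv.root μ
  · intro z _
    rw [nbrs_path1, Finset.sum_singleton, KT_delta0, sub_zero]

lemma conv_tree {μ ρ : ProbabilityMeasure ℝ}
    (h : ∀ z : ℂ, 0 < z.im → KT ρ z = KT μ z + 3 * KT μ (z - KT μ z)) : IsTreeConv tree μ ρ := by
  refine IsTreeConv.node tree μ ρ (fun j => if j = 0 then delta0 else μ) ?_ ?_
  · intro j _
    by_cases hj : j = 0
    · subst hj
      rw [branch_zero, if_pos rfl]
      exact IsTreeConv.root μ
    · rw [branch_succ j hj, if_neg hj]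
      exact conv_path1 μ
  · intro z hz
    rw [nbrs_tree, h z hz, Fin.sum_univ_four]
    simp only [if_true, KT_delta0, sub_zero]
    rw [if_neg (by decide), if_neg (by decide), if_neg (by decide)]
    ring

lemma iterate_head {N : ℕ} {T : Set (List (Fin N))} {μ μ1 : ProbabilityMeasure ℝ}
    (h : IsTreeConv T μ μ1) (l : ℕ) : ∀ ρ, IsIterate T l μ1 ρ → IsIterate T (l + 1) μ ρ := by
  induction l with
  | zero =>
    intro ρ hρ
    have : ρ = μ1 := hρ
    subst this
    exact ⟨μ, rfl, h⟩
  | succ l ih =>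
    rintro ρ ⟨ρ', h1, h2⟩
    exact ⟨ρ', ih ρ' h1, h2⟩

open Pool.Agent.Lib_helper91.Tree

lemma KT_pK {C δ : ℝ} {F : ℂ → ℂ} (h : Good C δ F) {z : ℂ} (hz : 0 < z.im) : KT h.pK z = F z := by
  have h1 : cauchyG h.pK z = (z - F z)⁻¹ := h.cauchy_mK hz
  unfold KT
  rw [h1, inv_inv, sub_sub_cancel]

/-- the measure of level `l`. -/
def ms {l : ℕ} {G : PowerSeries ℂ} (h : LevelOK l G) : ProbabilityMeasure ℝ :=
  (KF_good h (th_pos l) (th_le_one l)).pK

lemma KT_ms {l : ℕ} {G : PowerSeries ℂ} (h : LevelOK l G) {z : ℂ} (hz : 0 < z.im) :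
    KT (ms h) z = KF (th l) G z := KT_pK _ hz

lemma iterate_ms (l : ℕ) : ∀ (G : PowerSeries ℂ) (h : LevelOK l G) (h' : LevelOK 0 (NN l G)),
    IsIterate tree l (ms h) (ms h') := by
  induction l with
  | zero => intro G h h'; rfl
  | succ l ih =>
    intro G h h'
    apply iterate_head _ l _ (ih _ h.step h')
    apply conv_tree
    intro z hz
    have hg := KF_good h (th_pos (l + 1)) (th_le_one (l + 1))
    have him : 0 < (z - KF (th (l + 1)) G z).im := lt_of_lt_of_le hg.dpos (hg.im_sub hz.le)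
    rw [KT_ms h.step hz, KT_ms h hz, KT_ms h him]
    exact KF_step h hz.le

/-- Weak convergence implies convergence of the `K`-functions, if these are bounded. -/
lemma KT_conv {σ : ℕ → ProbabilityMeasure ℝ} {ν : ProbabilityMeasure ℝ}
    (h : Tendsto σ atTop (𝓝 ν)) {z : ℂ} (hz : 0 < z.im) {C : ℝ} (hC : ∀ m, ‖KT (σ m) z‖ ≤ C) :
    Tendsto (fun m => KT (σ m) z) atTop (𝓝 (KT ν z)) := by
  have h1 : Tendsto (fun m => cauchyG (σ m) z) atTop (𝓝 (cauchyG ν z)) := cauchy_conv h hz
  have hinv : ∀ m, (cauchyG (σ m) z)⁻¹ = z - KT (σ m) z := by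
    intro m; unfold KT; ring
  have hb : ∀ m, ‖(cauchyG (σ m) z)⁻¹‖ ≤ ‖z‖ + C := by
    intro m
    rw [hinv]
    exact (norm_sub_le _ _).trans (add_le_add le_rfl (hC m))
  have hne0 : ∀ m, cauchyG (σ m) z ≠ 0 := by
    intro m h0
    -- the imaginary part of the Cauchy transform is negative
    have hre : (cauchyG (σ m) z).im < 0 := by
      unfold cauchyG
      have hint : Integrable (fun t : ℝ => (z - (t : ℂ))⁻¹) (σ m : Measure ℝ) := by
        have hne : ∀ t : ℝ, z - (t : ℂ) ≠ 0 := by
          intro t h0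
          have : (z - (t : ℂ)).im = 0 := by rw [h0]; simp
          rw [Complex.sub_im, Complex.ofReal_im] at this
          linarith
        have hcont : Continuous fun t : ℝ => (z - (t : ℂ))⁻¹ :=
          (continuous_const.sub Complex.continuous_ofReal).inv₀ hne
        refine Integrable.of_bound (C := z.im⁻¹) hcont.aestronglyMeasurable
          (Eventually.of_forall fun t => ?_)
        rw [norm_inv]
        apply inv_anti₀ hz
        have := Complex.abs_im_le_norm (z - (t : ℂ))
        rw [Complex.sub_im, Complex.ofReal_im, sub_zero] at this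
        exact (le_abs_self _).trans this
      have h2 := integral_im hint
      simp only [RCLike.im_to_complex] at h2
      rw [← h2]
      have h3 : 0 < ∫ t : ℝ, -((z - (t : ℂ))⁻¹).im ∂(σ m : Measure ℝ) := by
        rw [integral_pos_iff_support_of_nonneg]
        · have : Function.support (fun t : ℝ => -((z - (t : ℂ))⁻¹).im) = Set.univ := by
            ext t
            simp only [Function.mem_support, Set.mem_univ, iff_true, ne_eq, neg_eq_zero]
            rw [Complex.inv_im, Complex.sub_im, Complex.ofReal_im, sub_zero]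
            have hnp : 0 < Complex.normSq (z - (t : ℂ)) := by
              rw [Complex.normSq_pos]
              intro h0
              have : (z - (t : ℂ)).im = 0 := by rw [h0]; simp
              rw [Complex.sub_im, Complex.ofReal_im] at this
              linarith
            have : -z.im / Complex.normSq (z - (t : ℂ)) < 0 := div_neg_of_neg_of_pos (by linarith) hnp
            exact this.ne
          rw [this]
          simp
        · intro t
          simp only [Pi.zero_apply]
          rw [Complex.inv_im, Complex.sub_im, Complex.ofReal_im, sub_zero, neg_div, neg_neg]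
          exact div_nonneg hz.le (Complex.normSq_nonneg _)
        · exact hint.im.neg
      rw [integral_neg] at h3
      linarith
    rw [h0, Complex.zero_im] at hre
    exact lt_irrefl _ hre
  have hlow : ∀ m, (‖z‖ + C)⁻¹ ≤ ‖cauchyG (σ m) z‖ := by
    intro m
    have h2 := hb m
    rw [norm_inv] at h2
    have h3 : 0 < ‖cauchyG (σ m) z‖ := norm_pos_iff.2 (hne0 m)
    rw [inv_le_comm₀ _ h3]
    · exact h2
    · exact lt_of_lt_of_le (inv_pos.2 h3) h2
  have hlim : (‖z‖ + C)⁻¹ ≤ ‖cauchyG ν z‖ := ge_of_tendsto' h1.norm hlow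
  have hpos : 0 < (‖z‖ + C)⁻¹ := by
    apply inv_pos.2
    have h2 := hb 0
    have h3 : 0 < ‖(cauchyG (σ 0) z)⁻¹‖ := norm_pos_iff.2 (inv_ne_zero (hne0 0))
    linarith
  have hne : cauchyG ν z ≠ 0 := by
    rw [← norm_pos_iff]; linarith
  exact tendsto_const_nhds.sub (h1.inv₀ hne)

/-- **The converse limit theorem is false.**  For the tree `T = {∅, 1, 2, 3, 4, 12, 13, 14}`
over four letters, `n(T) = 4`, there are probability measures `μ_l` and `k_l → ∞` such that
`⊞_{T^{∘ k_l}}(μ_l)` converges weakly to a probability measure, while the boolean powers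
`μ_l^{⊎ n(T)^{k_l}}` do not converge weakly to any probability measure. -/
theorem result : IsTree tree ∧ deg tree = 4 ∧
    ∃ (μ : ℕ → ProbabilityMeasure ℝ) (k : ℕ → ℕ) (ρ σ : ℕ → ProbabilityMeasure ℝ),
      Tendsto k atTop atTop ∧
      (∀ l, IsIterate tree (k l) (μ l) (ρ l)) ∧
      (∀ l, IsBooleanPower ((deg tree : ℝ) ^ k l) (μ l) (σ l)) ∧
      Converges ρ ∧ ¬ Converges σ := by
  refine ⟨tree_isTree, deg_tree, ?_⟩
  obtain ⟨ε, k, G, H, hε, hk, hG, hH, hconv, hvis⟩ := main_data
  refine ⟨fun l => ms (hG l), k, fun l => ms (hG l).NN,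
    fun l => (KF_good (hG l) one_pos le_rfl).pK, hk, fun l => iterate_ms _ _ _ _, ?_, ?_, ?_⟩
  · intro l z hz
    rw [KT_pK _ hz, KT_ms _ hz, deg_tree]
    unfold KF
    have h4 : ((4 : ℝ) ^ k l) * th (k l) = 1 := by
      unfold th; rw [← mul_pow]; norm_num
    have h4' : ((4 : ℂ) ^ k l) * (th (k l) : ℂ) = 1 := by
      have := congrArg (fun x : ℝ => (x : ℂ)) h4
      simpa using this
    push_cast
    linear_combination -(Complex.I * (-Ac + ev (G l) (Complex.exp (Complex.I * z)))) * h4'
  · refine ⟨ms hH, ?_⟩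
    apply weak_conv (fun m => KF_good (hG m).NN (th_pos 0) (th_le_one 0))
      (KF_good hH (th_pos 0) (th_le_one 0))
    intro x
    unfold KF
    apply Tendsto.const_mul
    apply Tendsto.const_add
    exact ev_conv (fun m => (hG m).NN) hH hconv (norm_exp_le (by simp))
  · rintro ⟨ν, hν⟩
    have hK : ∀ z : ℂ, 0 < z.im → Tendsto (fun m => KF 1 (G m) z) atTop (𝓝 (KT ν z)) := by
      intro z hz
      have h1 := KT_conv hν hz (C := 15) (fun m => by
        rw [KT_pK _ hz]
        exact (KF_good (hG m) one_pos le_rfl).bdd z hz.le)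
      simpa only [KT_pK _ hz] using h1
    have hz2 : 0 < (z1 + Real.pi).im := by
      rw [Complex.add_im, Complex.ofReal_im, add_zero]; exact z1_im
    have hd := (hK z1 z1_im).sub (hK (z1 + Real.pi) hz2)
    have him := (Complex.continuous_im.tendsto _).comp hd
    set D : ℝ := (KT ν z1 - KT ν (z1 + Real.pi)).im with hD
    have hval : ∀ m, (KF 1 (G m) z1 - KF 1 (G m) (z1 + Real.pi)).im =
        (ev (G m) ((3 / 4 : ℝ) : ℂ) - ev (G m) (-((3 / 4 : ℝ) : ℂ))).re := by
      intro m
      unfold KF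
      rw [exp_z1, exp_z2]
      have e : Complex.I * ((1 : ℝ) : ℂ) * (-Ac + ev (G m) ((3 / 4 : ℝ) : ℂ)) -
          Complex.I * ((1 : ℝ) : ℂ) * (-Ac + ev (G m) (-((3 / 4 : ℝ) : ℂ))) =
          Complex.I * (ev (G m) ((3 / 4 : ℝ) : ℂ) - ev (G m) (-((3 / 4 : ℝ) : ℂ))) := by
        push_cast; ring
      rw [e, Complex.I_mul_im]
    have him2 : Tendsto (fun m => (ev (G m) ((3 / 4 : ℝ) : ℂ) - ev (G m) (-((3 / 4 : ℝ) : ℂ))).re)
        atTop (𝓝 D) := by
      refine him.congr fun m => ?_
      rw [← hval m]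
      rfl
    rw [Metric.tendsto_atTop] at him2
    obtain ⟨M, hM⟩ := him2 (ε / 4) (by positivity)
    have a1 := hM (2 * M) (by omega)
    have a2 := hM (2 * M + 1) (by omega)
    have b1 := hvis (2 * M)
    have b2 := hvis (2 * M + 1)
    rw [Even.neg_one_pow ⟨M, by ring⟩, one_mul] at b1
    rw [Odd.neg_one_pow ⟨M, by ring⟩, neg_one_mul] at b2
    rw [Real.dist_eq, abs_lt] at a1 a2
    linarith [a1.1, a1.2, a2.1, a2.2]

end
end Pool.Agent.Results.MP_50dbd7_an.ConverseFails
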